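import Pool.Agent.Helper42.VR.Ball

/-!
# If the center is in the image at the least possible scale, then so is a ball
-/

set_option autoImplicit false

namespace Pool.Agent.Results.MP_678251_co.CoveredBall

open Pool.Agent.Helper42.VR

/-- If the center `c` of the `n`-cube lies in the image of `f_n : VR(Q_n; r) → [0, 1]ⁿ` at the
least possible scale `r = (n + 1) / 2`, then at every scale `r ≥ (n + 1) / 2` the image contains
the inscribed ball, i.e. all points at Euclidean distance at most `1 / 2` from `c`. -/
theorem result (n : ℕ) (h : CenterCovered n (((n : ℝ) + 1) / 2)) (r : ℝ)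
    (hr : ((n : ℝ) + 1) / 2 ≤ r) (x : Fin n → ℝ) (hx : ∑ i, (x i - 1 / 2) ^ 2 ≤ (1 / 2) ^ 2) :
    ∃ w ∈ VRReal n r, fmap w = x :=
  ball_of_center h hr (by norm_num at hx ⊢; exact hx)

end Pool.Agent.Results.MP_678251_co.CoveredBall
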