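import Pool.Agent.Helper93.VR.Dig
import Pool.Agent.Helper76.VR.Specials

/-!
# The question for all dimensions and scales up to a short window
-/

set_option autoImplicit false

namespace Pool.Agent.Results.MP_678251_co.DigitWindow

open Pool.Agent.Helper42.VR

/-- The numbers `2 ^ a`, `3 * 2 ^ (a + 1)` and `5 * 2 ^ (a + 1)`. -/
def IsDigit (d : ℕ) : Prop := (∃ a, d = 2 ^ a) ∨ (∃ a, d = 3 * 2 ^ (a + 1)) ∨ (∃ a, d = 5 * 2 ^ (a + 1))

/-- `m` is a sum of `t` digits. -/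
def IsDigitSum (m t : ℕ) : Prop := ∃ l : List ℕ, (∀ d ∈ l, IsDigit d) ∧ l.sum = m ∧ l.length = t

/-- The least `n ≥ 1` for which `f_n : VR(Q_n; r) → [0, 1]ⁿ` is not surjective. -/
noncomputable def leastN (r : ℝ) : ℕ := sInf {n | 1 ≤ n ∧ ¬ Surj n r}

/-- The dimensions in which the question is settled for all scales: `(n + t) / 2` is a sum of `t` digits,
where `t = 1` or `t = 2`, or `t = 3` and `n ≡ 1` modulo four. -/
def IsSettled (n : ℕ) : Prop :=
  ∃ m t, 2 * m = n + t ∧ IsDigitSum m t ∧ (t ≤ 2 ∨ (t = 3 ∧ n % 4 = 1))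

theorem T_digit {d : ℕ} (h : IsDigit d) : T (2 * d) := T_dig_of T_two_pow T_three T_five h

theorem isDigitSum_digits (m : ℕ) : IsDigitSum m (Nat.digits 2 m).sum := by
  have key : ∀ m k : ℕ, ∃ l : List ℕ, (∀ d ∈ l, ∃ a, d = 2 ^ a) ∧ l.sum = 2 ^ k * m ∧
      l.length = (Nat.digits 2 m).sum := by
    intro m
    induction m using Nat.strong_induction_on with
    | _ m ih =>
      intro k
      rcases Nat.eq_zero_or_pos m with hm | hm
      · subst hm
        exact ⟨[], by simp, by simp, by simp⟩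
      · obtain ⟨l, hl, hs, hlen⟩ := ih (m / 2) (Nat.div_lt_self hm (by norm_num)) (k + 1)
        rw [Nat.digits_def' (by norm_num) hm, List.sum_cons]
        rcases Nat.mod_two_eq_zero_or_one m with h | h
        · refine ⟨l, hl, ?_, by rw [h, zero_add, hlen]⟩
          have : m = 2 * (m / 2) := by omega
          rw [hs]
          nth_rewrite 2 [this]
          ring
        · refine ⟨2 ^ k :: l, ?_, ?_, ?_⟩
          · intro d hd
            rcases List.mem_cons.1 hd with hd | hd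
            · exact ⟨k, hd⟩
            · exact hl d hd
          · rw [List.sum_cons, hs]
            have h2 : m = 2 * (m / 2) + 1 := by omega
            nth_rewrite 2 [h2]
            ring
          · rw [List.length_cons, hlen, h]
            ring
  obtain ⟨l, hl, hs, hlen⟩ := key m 0
  exact ⟨l, fun d hd => Or.inl (hl d hd), by simpa using hs, hlen⟩

/-- Let `m` be the integer part of the scale `r ≥ 0`. The numbers `2 ^ a`, `3 * 2 ^ (a + 1)` and `5 * 2 ^ (a + 1)` are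
called digits.
* If `m` is a sum of `t` digits, then `f_n : VR(Q_n; r) → [0, 1]ⁿ` is surjective for `n ≤ 2 m - t`; in particular
  for `n ≤ 2 m - s`, `s` the sum of the binary digits of `m`, and for `r ≥ (n + ⌈log₂ (n + 1)⌉) / 2`.
* For `n ≥ 1` the center is not in the image for `n ≥ 2 m`, and for `n = 2 m - 1` if `m ≥ 3` is odd.
* If `(n + t) / 2` is a sum of `t` digits, `t ≤ 2`, or `t = 3` and `n ≡ 1` modulo four, then for every scale
  `f_n` is surjective, if its image contains the center; all `1 ≤ n ≤ 26` are such numbers.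
* For every integer `r ≥ 1` which is a sum of `t` digits the least `n ≥ 1` for which `f_n` is not surjective lies in
  `(2 r - t, 2 r]`; it is `2 r` if `r` is a digit, and `2 r - 1` if `r - 1` is an even digit. -/
theorem result :
    (∀ (n t : ℕ) (r : ℝ), 0 ≤ r → IsDigitSum ⌊r⌋₊ t → n + t ≤ 2 * ⌊r⌋₊ → Surj n r) ∧
    (∀ m : ℕ, IsDigitSum m (Nat.digits 2 m).sum) ∧
    (∀ (n : ℕ) (r : ℝ), ((n : ℝ) + Nat.clog 2 (n + 1)) / 2 ≤ r → Surj n r) ∧
    (∀ (n : ℕ) (r : ℝ), 1 ≤ n → (2 * ⌊r⌋₊ ≤ n ∨ (n + 1 = 2 * ⌊r⌋₊ ∧ 3 ≤ ⌊r⌋₊ ∧ Odd ⌊r⌋₊)) →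
      ¬ CenterCovered n r) ∧
    (∀ (n : ℕ) (r : ℝ), 1 ≤ n → IsSettled n → 0 ≤ r → CenterCovered n r → Surj n r) ∧
    (∀ n : ℕ, 1 ≤ n → n ≤ 26 → IsSettled n) ∧
    (∀ r t : ℕ, 1 ≤ r → IsDigitSum r t → leastN r ≤ 2 * r ∧ 2 * r < leastN r + t) ∧
    (∀ d : ℕ, IsDigit d → leastN d = 2 * d) ∧
    (∀ d : ℕ, IsDigit d → Even d → leastN ((d + 1 : ℕ) : ℝ) = 2 * d + 1) := by
  have hP : ∀ d, IsDigit d → 1 ≤ d ∧ T (2 * d) := fun d hd => ⟨dig_pos hd, T_digit hd⟩
  have hodd : ∀ (n : ℕ) (r : ℝ), 1 ≤ n → (2 * ⌊r⌋₊ ≤ n ∨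
      (n + 1 = 2 * ⌊r⌋₊ ∧ 3 ≤ ⌊r⌋₊ ∧ Odd ⌊r⌋₊)) → ¬ CenterCovered n r := by
    rintro n r hn (h | ⟨h, h3, h4⟩) hc
    · exact not_center_of_two_mul hn h (center_floor hc)
    · have h5 := (floor_of_center hn hc).2 h
      obtain ⟨j, hj⟩ := h4
      omega
  have hsett : ∀ n, IsSettled n ↔ IsSettled' n := by
    intro n
    constructor
    · rintro ⟨m, t, h1, ⟨l, hl, rfl, rfl⟩, h3⟩
      exact ⟨l, hl, h1, h3⟩
    · rintro ⟨l, hl, h1, h3⟩
      exact ⟨l.sum, l.length, h1, ⟨l, hl, rfl, rfl⟩, h3⟩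
  have hleast : ∀ r t : ℕ, 1 ≤ r → IsDigitSum r t → leastN r ≤ 2 * r ∧ 2 * r < leastN r + t := by
    rintro r t hr ⟨l, hl, rfl, rfl⟩
    exact least_bounds_of_list (fun d hd => T_digit hd) hl hr rfl
  refine ⟨?_, isDigitSum_digits, fun n r h => surj_of_clog T_two_pow h, hodd, ?_, ?_, hleast, ?_, ?_⟩
  · rintro n t r hr ⟨l, hl, hs, rfl⟩ hn
    exact surj_of_list' hP hl (by rw [hs]; exact Nat.floor_le hr) (by rw [hs]; exact hn)
  · intro n r hn h hr hc
    exact question_of_settled_of (fun d hd => T_digit hd) hn ((hsett n).1 h) hr hc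
  · exact fun n h1 h2 => (hsett n).2 (settled_le h1 h2)
  · intro d hd
    have h1 := hleast d 1 (dig_pos hd) ⟨[d], by simpa using hd, by simp, by simp⟩
    omega
  · intro d hd he
    have hd1 := dig_pos hd
    have h1 := hleast (d + 1) 2 (by omega) ⟨[d, 1], by simpa using ⟨hd, dig1⟩, by simp, by simp⟩
    have h4 : leastN (((d + 1 : ℕ)) : ℝ) ≤ 2 * d + 1 := by
      apply Nat.sInf_le
      refine ⟨by omega, fun h => ?_⟩
      refine hodd (2 * d + 1) ((d + 1 : ℕ) : ℝ) (by omega) (Or.inr ?_) (h _ fun _ => by norm_num)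
      rw [Nat.floor_natCast]
      obtain ⟨j, hj⟩ := he
      exact ⟨by omega, by omega, ⟨j, by omega⟩⟩
    omega

end Pool.Agent.Results.MP_678251_co.DigitWindow
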