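import Pool.Agent.Helper42.VR.Where

/-!
# Points with many coordinates away from `1 / 2` are always in the image
-/

set_option autoImplicit false

namespace Pool.Agent.Results.MP_678251_co.FarPoints

open Pool.Agent.Helper42.VR

/-- The number `⌊log₂ n⌋ + 3`. -/
noncomputable def ell (n : ℕ) : ℝ := (Nat.log 2 n : ℝ) + 3

/-- The number of coordinates of `x` at distance more than `1 / (⌊log₂ n⌋ + 3)` from `1 / 2`. -/
noncomputable def far {n : ℕ} (x : Fin n → ℝ) : ℕ :=
  (Finset.univ.filter (fun i => 1 / ell n < |x i - 1 / 2|)).card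

/-- If the point `x` of the cube has `m ≥ 40 ℓ⁴ (1 + log ℓ)` coordinates at distance more than
`1 / ℓ` from `1 / 2`, where `ℓ = ⌊log₂ n⌋ + 3`, then it lies in the image of
`f_n : VR(Q_n; r) → [0, 1]ⁿ` at every scale `r ≥ n / 2 - m / (4 ℓ²)`. -/
theorem result (n : ℕ) (x : Fin n → ℝ) (hx : ∀ i, 0 ≤ x i ∧ x i ≤ 1)
    (hm : 40 * ell n ^ 4 * (1 + Real.log (ell n)) ≤ far x) (r : ℝ)
    (hr : (n : ℝ) / 2 - far x / (4 * ell n ^ 2) ≤ r) : ∃ w ∈ VRReal n r, fmap w = x := by
  have ht : 0 < ell n := by unfold ell; positivity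
  refine exists_of_many (t := ell n) rfl hx ?_ hm hr
  unfold far
  congr 1
  refine Finset.filter_congr fun i _ => ?_
  have h1 : |2 * x i - 1| = 2 * |x i - 1 / 2| := by
    rw [← abs_of_pos (show (0 : ℝ) < 2 by norm_num), ← abs_mul, abs_of_pos (show (0 : ℝ) < 2 by norm_num)]
    congr 1
    ring
  rw [h1]
  constructor
  · intro h
    have : 2 / ell n = 2 * (1 / ell n) := by ring
    rw [this] at h
    linarith
  · intro h
    have : 2 / ell n = 2 * (1 / ell n) := by ring
    rw [this]
    linarith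

end Pool.Agent.Results.MP_678251_co.FarPoints
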