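import Pool.Agent.Helper42.VR.Hadamard

/-!
# The least scale at which the center can be covered: Hadamard matrices
-/

set_option autoImplicit false

namespace Pool.Agent.Results.MP_678251_co.HadamardThreshold

open Pool.Agent.Helper42.VR

/-- The order of a Hadamard matrix with at least three rows is divisible by four. -/
theorem four_dvd {N : ℕ} (hN : 3 ≤ N) (h : HadamardExists N) : 4 ∣ N := by
  obtain ⟨H, hH, hO⟩ := h
  have horth : ∀ i j : Fin N, ∑ k, H i k * H j k = if i = j then (N : ℤ) else 0 := by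
    intro i j
    have h1 := congrFun (congrFun hO i) j
    simp only [Matrix.mul_apply, Matrix.transpose_apply, Matrix.smul_apply, Matrix.one_apply,
      smul_eq_mul, mul_ite, mul_one, mul_zero] at h1
    exact h1
  let r0 : Fin N := ⟨0, by omega⟩
  let r1 : Fin N := ⟨1, by omega⟩
  let r2 : Fin N := ⟨2, by omega⟩
  have h01 : r0 ≠ r1 := fun h => by simpa [r0, r1] using congrArg Fin.val h
  have h02 : r0 ≠ r2 := fun h => by simpa [r0, r2] using congrArg Fin.val h
  have h12 : r1 ≠ r2 := fun h => by simpa [r1, r2] using congrArg Fin.val h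
  have hsum : ∑ k, (H r0 k + H r1 k) * (H r0 k + H r2 k) = (N : ℤ) := by
    have e : ∀ k, (H r0 k + H r1 k) * (H r0 k + H r2 k) = H r0 k * H r0 k + H r0 k * H r2 k
        + H r0 k * H r1 k + H r1 k * H r2 k := fun k => by ring
    simp only [e, Finset.sum_add_distrib, horth, if_neg h01, if_neg h02, if_neg h12]
    simp
  have hdvd : (4 : ℤ) ∣ ∑ k, (H r0 k + H r1 k) * (H r0 k + H r2 k) := by
    apply Finset.dvd_sum
    intro k _
    rcases hH r0 k with a | a <;> rcases hH r1 k with b | b <;> rcases hH r2 k with c | c <;>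
      rw [a, b, c] <;> norm_num
  rw [hsum] at hdvd
  exact_mod_cast hdvd

/-- The center of the `n`-cube lies in the image of `f_n` at scale `r = (n + 1) / 2`, the least
possible one, if and only if there is a Hadamard matrix of order `n + 1`; in particular, for
`n ≥ 2` with `n + 1` not divisible by four, it does not lie in the image for `r < n / 2 + 1`. -/
theorem result :
    (∀ n : ℕ, CenterCovered n (((n : ℝ) + 1) / 2) ↔ HadamardExists (n + 1)) ∧
    (∀ n : ℕ, 2 ≤ n → ¬ 4 ∣ n + 1 → ∀ r : ℝ, r < (n : ℝ) / 2 + 1 → ¬ CenterCovered n r) := by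
  refine ⟨fun n => centerCovered_iff_hadamard, fun n hn hdiv r hr h => ?_⟩
  apply hdiv
  apply four_dvd (by omega)
  rw [← centerCovered_iff_hadamard]
  obtain ⟨w, ⟨hw0, hw1, hwr⟩, hf⟩ := h
  refine ⟨w, ⟨hw0, hw1, fun a b ha hb => ?_⟩, hf⟩
  have h1 := lt_of_le_of_lt (hwr a b ha hb) hr
  rw [dist_nat] at h1 ⊢
  have h2 : 2 * (Finset.univ.filter (fun i => a i ≠ b i)).card < n + 2 := by
    have : (2 : ℝ) * ((Finset.univ.filter (fun i => a i ≠ b i)).card : ℝ) < n + 2 := by linarith
    exact_mod_cast this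
  have h3 : (2 : ℝ) * ((Finset.univ.filter (fun i => a i ≠ b i)).card : ℝ) ≤ n + 1 := by
    exact_mod_cast (by omega : 2 * (Finset.univ.filter (fun i => a i ≠ b i)).card ≤ n + 1)
  linarith

end Pool.Agent.Results.MP_678251_co.HadamardThreshold
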